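import Pool.Graph.R_pool_sql_team_79ade240.H7Cara.Defs
import Pool.Graph.R_pool_sql_team_79ade240.Results.MP_ea326e_an.Growth

/-!
MP_ea326e_an, Q2 (partial): the exact order `(1 - r)^(-5/2)` of the distortion function
`d_n(r) = sup ‖Dh(z)‖` of the Carathéodory family.
-/

set_option autoImplicit false

open Metric

namespace Pool.Agent.Results.MP_ea326e_an.Distortion

open Pool.Agent.H11Cara Pool.Agent.H7Cara

/-- The set of all operator norms `‖Dh(z)‖` with `h ∈ M` and `‖z‖ = r`. -/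
def dvals (n : ℕ) (r : ℝ) : Set ℝ :=
  {x | ∃ h ∈ Caratheodory n, ∃ z : EuclideanSpace ℂ (Fin n), ‖z‖ = r ∧ x = ‖fderiv ℂ h z‖}

/-- `d_n(r) = sup {‖Dh(z)‖ : h ∈ M, ‖z‖ = r}`. -/
noncomputable def dn (n : ℕ) (r : ℝ) : ℝ := sSup (dvals n r)

variable {n : ℕ}

/-! ### The example -/

noncomputable def ph (b : ℝ) (ζ : ℂ) : ℂ := (1 + (b : ℂ) * ζ) / (1 - (b : ℂ) * ζ)

noncomputable def ps (b : ℝ) (ζ : ℂ) : ℂ :=
  ((2 * b * √(1 - b ^ 2) : ℝ) : ℂ) * ζ ^ 2 / (1 - (b : ℂ) * ζ) ^ 2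

noncomputable def ex (i j : Fin n) (b : ℝ) : Map n :=
  fun z => (ph b (z j)) • z + (ps b (z j)) • EuclideanSpace.single i (1 : ℂ)

lemma ne {b : ℝ} (h0 : 0 ≤ b) (h1 : b < 1) {ζ : ℂ} (hζ : ‖ζ‖ < 1) : 1 - (b : ℂ) * ζ ≠ 0 := by
  intro h
  have h2 : (b : ℂ) * ζ = 1 := (sub_eq_zero.1 h).symm
  have h3 : ‖(b : ℂ) * ζ‖ = 1 := by rw [h2]; simp
  rw [norm_mul, Complex.norm_real, Real.norm_of_nonneg h0] at h3
  nlinarith [norm_nonneg ζ]

lemma ph_an {b : ℝ} (h0 : 0 ≤ b) (h1 : b < 1) {ζ : ℂ} (hζ : ‖ζ‖ < 1) : AnalyticAt ℂ (ph b) ζ := by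
  unfold ph
  exact (analyticAt_const.add (analyticAt_const.mul analyticAt_id)).div
    (analyticAt_const.sub (analyticAt_const.mul analyticAt_id)) (ne h0 h1 hζ)

lemma ps_an {b : ℝ} (h0 : 0 ≤ b) (h1 : b < 1) {ζ : ℂ} (hζ : ‖ζ‖ < 1) : AnalyticAt ℂ (ps b) ζ := by
  unfold ps
  exact (analyticAt_const.mul (analyticAt_id.pow 2)).div
    ((analyticAt_const.sub (analyticAt_const.mul analyticAt_id)).pow 2) (pow_ne_zero 2 (ne h0 h1 hζ))

lemma ps_d {b : ℝ} (h0 : 0 ≤ b) (h1 : b < 1) {ζ : ℂ} (hζ : ‖ζ‖ < 1) :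
    HasDerivAt (ps b) (((2 * b * √(1 - b ^ 2) : ℝ) : ℂ) * (2 * ζ) / (1 - (b : ℂ) * ζ) ^ 3) ζ := by
  have hne := ne h0 h1 hζ
  have h2 : HasDerivAt (fun ζ : ℂ => ((2 * b * √(1 - b ^ 2) : ℝ) : ℂ) * ζ ^ 2)
      (((2 * b * √(1 - b ^ 2) : ℝ) : ℂ) * (2 * ζ)) ζ := by
    have := (hasDerivAt_pow 2 ζ).const_mul (((2 * b * √(1 - b ^ 2) : ℝ) : ℂ))
    simpa using this
  have h3 : HasDerivAt (fun ζ : ℂ => 1 - (b : ℂ) * ζ) (-(b : ℂ)) ζ := by
    have := ((hasDerivAt_id ζ).const_mul (b : ℂ)).const_sub 1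
    simpa using this
  have h4 := h2.div (h3.pow 2) (pow_ne_zero 2 hne)
  have h5 : HasDerivAt (ps b) _ ζ := h4
  convert h5 using 1
  simp only [Pi.pow_apply]
  push_cast
  field_simp
  ring

/-- the inequality behind the positivity of the example -/
lemma key_ineq {b s N x y : ℝ} (h0 : 0 ≤ b) (h1 : b < 1) (hs0 : 0 ≤ s) (hs : s ^ 2 = 1 - b ^ 2)
    (hN0 : 0 < N) (hN1 : N < 1) (hy : 0 ≤ y) (hxy : x ^ 2 + y ^ 2 ≤ N ^ 2) :
    2 * b * s * x ^ 2 * y < N ^ 2 * (1 - b ^ 2 * x ^ 2) := by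
  have hy2 : y ^ 2 ≤ N ^ 2 := by nlinarith [sq_nonneg x]
  have g1 : 2 * b * s * (N * y) ≤ s ^ 2 * N ^ 2 + b ^ 2 * y ^ 2 := by
    nlinarith [sq_nonneg (s * N - b * y)]
  have hb2 : b ^ 2 ≤ 1 := by nlinarith
  have g2 : N * (b ^ 2 * N ^ 2 + 2 * b * s * y) ≤ N ^ 2 + y ^ 2 := by
    have e1 : b ^ 2 * N ^ 3 ≤ b ^ 2 * N ^ 2 := by
      apply mul_le_mul_of_nonneg_left _ (sq_nonneg b)
      nlinarith [sq_nonneg N]
    have e2 : b ^ 2 * y ^ 2 ≤ y ^ 2 := by nlinarith [sq_nonneg y]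
    have e3 : s ^ 2 * N ^ 2 = N ^ 2 - b ^ 2 * N ^ 2 := by rw [hs]; ring
    nlinarith
  have hc : 0 ≤ b ^ 2 * N ^ 2 + 2 * b * s * y := by positivity
  have g3 : (N ^ 2 - y ^ 2) * (N * (b ^ 2 * N ^ 2 + 2 * b * s * y)) ≤
      (N ^ 2 - y ^ 2) * (N ^ 2 + y ^ 2) := mul_le_mul_of_nonneg_left g2 (by linarith)
  have g4 : x ^ 2 * (N * (b ^ 2 * N ^ 2 + 2 * b * s * y)) ≤
      (N ^ 2 - y ^ 2) * (N * (b ^ 2 * N ^ 2 + 2 * b * s * y)) :=
    mul_le_mul_of_nonneg_right (by linarith) (by positivity)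
  have g5 : N * (x ^ 2 * (b ^ 2 * N ^ 2 + 2 * b * s * y)) < N * N ^ 2 := by
    have e4 : N ^ 4 < N ^ 3 := by
      have : 0 < N ^ 3 := by positivity
      nlinarith
    have e5 : (N ^ 2 - y ^ 2) * (N ^ 2 + y ^ 2) ≤ N ^ 4 := by
      nlinarith [sq_nonneg (y ^ 2)]
    nlinarith
  have g6 := lt_of_mul_lt_mul_left g5 hN0.le
  nlinarith

lemma re_ph {b : ℝ} {ζ : ℂ} (hne : 1 - (b : ℂ) * ζ ≠ 0) :
    (ph b ζ).re = (1 - b ^ 2 * ‖ζ‖ ^ 2) / ‖1 - (b : ℂ) * ζ‖ ^ 2 := by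
  unfold ph
  rw [Complex.div_re, ← Complex.sq_norm]
  have e1 : ‖1 - (b : ℂ) * ζ‖ ^ 2 = (1 - b * ζ.re) ^ 2 + (b * ζ.im) ^ 2 := by
    rw [Complex.sq_norm, Complex.normSq_apply]; simp; ring
  have e2 : ‖ζ‖ ^ 2 = ζ.re ^ 2 + ζ.im ^ 2 := by
    rw [Complex.sq_norm, Complex.normSq_apply]; ring
  rw [← add_div]
  congr 1
  rw [e2]
  simp
  ring

lemma ex_pos (i j : Fin n) (hij : i ≠ j) {b : ℝ} (h0 : 0 ≤ b) (h1 : b < 1)
    (z : EuclideanSpace ℂ (Fin n))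
    (hz : z ∈ ball (0 : EuclideanSpace ℂ (Fin n)) 1) (hz0 : z ≠ 0) :
    0 < (inner ℂ z (ex i j b z)).re := by
  have hN : ‖z‖ < 1 := by simpa using hz
  have hN0 : 0 < ‖z‖ := norm_pos_iff.mpr hz0
  have h3 : ‖z j‖ ^ 2 + ‖z i‖ ^ 2 ≤ ‖z‖ ^ 2 := by
    rw [EuclideanSpace.norm_sq_eq]
    have : ({i, j} : Finset (Fin n)) ⊆ Finset.univ := Finset.subset_univ _
    have h5 := Finset.sum_le_sum_of_subset_of_nonneg (f := fun k => ‖z k‖ ^ 2) this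
      (fun k _ _ => sq_nonneg _)
    rw [Finset.sum_pair hij] at h5
    linarith
  have hj : ‖z j‖ < 1 := (PiLp.norm_apply_le z j).trans_lt hN
  have hne := ne h0 h1 hj
  have h2 : inner ℂ z (ex i j b z) = ph b (z j) * ((‖z‖ ^ 2 : ℝ) : ℂ) +
      ps b (z j) * (starRingEnd ℂ) (z i) := by
    unfold ex
    rw [inner_add_right, inner_smul_right, inner_smul_right, inner_self_eq_norm_sq_to_K,
      EuclideanSpace.inner_single_right]
    simp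
  have hre : (ph b (z j) * ((‖z‖ ^ 2 : ℝ) : ℂ)).re = (ph b (z j)).re * ‖z‖ ^ 2 := by
    rw [mul_comm, Complex.re_ofReal_mul, mul_comm]
  rw [h2, Complex.add_re, hre, re_ph hne]
  have hw : 0 < ‖1 - (b : ℂ) * z j‖ ^ 2 := by positivity
  have hd : 0 < 1 - b ^ 2 := by nlinarith
  have hg : ‖ps b (z j) * (starRingEnd ℂ) (z i)‖ =
      2 * b * √(1 - b ^ 2) * ‖z j‖ ^ 2 * ‖z i‖ / ‖1 - (b : ℂ) * z j‖ ^ 2 := by
    unfold ps
    rw [norm_mul, norm_div, norm_mul, norm_pow, norm_pow, Complex.norm_real, Complex.norm_conj,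
      Real.norm_of_nonneg (by positivity)]
    ring
  have h7 : -‖ps b (z j) * (starRingEnd ℂ) (z i)‖ ≤ (ps b (z j) * (starRingEnd ℂ) (z i)).re :=
    (abs_le.mp (Complex.abs_re_le_norm _)).1
  rw [hg] at h7
  have hkey := key_ineq h0 h1 (Real.sqrt_nonneg (1 - b ^ 2)) (Real.sq_sqrt hd.le) hN0 hN
    (norm_nonneg (z i)) h3
  have h8 : 2 * b * √(1 - b ^ 2) * ‖z j‖ ^ 2 * ‖z i‖ / ‖1 - (b : ℂ) * z j‖ ^ 2 <
      ‖z‖ ^ 2 * (1 - b ^ 2 * ‖z j‖ ^ 2) / ‖1 - (b : ℂ) * z j‖ ^ 2 :=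
    div_lt_div_of_pos_right hkey hw
  have h9 : (1 - b ^ 2 * ‖z j‖ ^ 2) / ‖1 - (b : ℂ) * z j‖ ^ 2 * ‖z‖ ^ 2 =
      ‖z‖ ^ 2 * (1 - b ^ 2 * ‖z j‖ ^ 2) / ‖1 - (b : ℂ) * z j‖ ^ 2 := by ring
  rw [h9]
  linarith

lemma ex_mem (i j : Fin n) (hij : i ≠ j) {b : ℝ} (h0 : 0 ≤ b) (h1 : b < 1) :
    ex i j b ∈ Caratheodory n := by
  have hp : ∀ z : EuclideanSpace ℂ (Fin n), AnalyticAt ℂ (fun z : EuclideanSpace ℂ (Fin n) => z j) z :=
    fun z => (EuclideanSpace.proj (𝕜 := ℂ) j).analyticAt z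
  refine ⟨?_, ?_, ?_, fun z hz hz0 => ex_pos i j hij h0 h1 z hz hz0⟩
  · intro z hz
    have hj : ‖z j‖ < 1 := (PiLp.norm_apply_le z j).trans_lt (mem_ball_zero_iff.1 hz)
    have a1 := AnalyticAt.comp (g := ph b) (f := fun z : EuclideanSpace ℂ (Fin n) => z j) (x := z)
      (ph_an h0 h1 hj) (hp z)
    have a2 := AnalyticAt.comp (g := ps b) (f := fun z : EuclideanSpace ℂ (Fin n) => z j) (x := z)
      (ps_an h0 h1 hj) (hp z)
    exact (a1.smul analyticAt_id).add (a2.smul analyticAt_const)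
  · simp [ex, ps]
  · have hpr : HasFDerivAt (fun z : EuclideanSpace ℂ (Fin n) => z j)
      (EuclideanSpace.proj (𝕜 := ℂ) j) 0 := (EuclideanSpace.proj (𝕜 := ℂ) j).hasFDerivAt
    have hz0 : ‖(0 : ℂ)‖ < 1 := by simp
    have c1 : HasDerivAt (ph b) (deriv (ph b) 0) ((0 : EuclideanSpace ℂ (Fin n)) j) := by
      have := (ph_an h0 h1 hz0).differentiableAt.hasDerivAt
      simpa using this
    have c2 : HasDerivAt (ps b) 0 ((0 : EuclideanSpace ℂ (Fin n)) j) := by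
      have := ps_d h0 h1 hz0
      simpa using this
    have b1 := HasFDerivAt.comp (g := ph b) (f := fun z : EuclideanSpace ℂ (Fin n) => z j)
      (0 : EuclideanSpace ℂ (Fin n)) c1.hasFDerivAt hpr
    have b2 := HasFDerivAt.comp (g := ps b) (f := fun z : EuclideanSpace ℂ (Fin n) => z j)
      (0 : EuclideanSpace ℂ (Fin n)) c2.hasFDerivAt hpr
    have b3 := (b1.smul (hasFDerivAt_id (𝕜 := ℂ) (0 : EuclideanSpace ℂ (Fin n)))).add
      (b2.smul_const (EuclideanSpace.single i (1 : ℂ)))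
    have b4 : HasFDerivAt (ex i j b) _ 0 := b3
    refine b4.congr_fderiv ?_
    ext v
    simp [ph]

/-- the derivative of the example at `r e_j` -/
lemma ex_fderiv (i j : Fin n) (hij : i ≠ j) {b r : ℝ} (h0 : 0 ≤ b) (h1 : b < 1) (hr0 : 0 < r)
    (hr1 : r < 1) :
    4 * b * √(1 - b ^ 2) * r / (1 - b * r) ^ 3 ≤
      ‖fderiv ℂ (ex i j b) (EuclideanSpace.single j (r : ℂ))‖ := by
  have hzn : ‖(EuclideanSpace.single j (r : ℂ) : EuclideanSpace ℂ (Fin n))‖ = r := by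
    simp [abs_of_pos hr0]
  have hd : DifferentiableAt ℂ (ex i j b) (EuclideanSpace.single j (r : ℂ)) :=
    ((ex_mem i j hij h0 h1).1 _ (by rw [mem_ball_zero_iff, hzn]; exact hr1)).differentiableAt
  -- the curve
  have hr1' : ‖(r : ℂ)‖ < 1 := by
    rw [Complex.norm_real, Real.norm_of_nonneg hr0.le]; exact hr1
  have hcurve : HasDerivAt (fun ζ : ℂ => (EuclideanSpace.single j ζ : EuclideanSpace ℂ (Fin n)))
      (EuclideanSpace.single j (1 : ℂ)) (r : ℂ) := by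
    have h := (hasDerivAt_id (r : ℂ)).smul_const (EuclideanSpace.single j (1 : ℂ))
    have e : (fun ζ : ℂ => (EuclideanSpace.single j ζ : EuclideanSpace ℂ (Fin n))) =
        fun ζ : ℂ => id ζ • (EuclideanSpace.single j (1 : ℂ) : EuclideanSpace ℂ (Fin n)) := by
      funext ζ
      ext k
      by_cases hk : k = j
      · subst hk; simp
      · simp [hk]
    rw [e]
    simpa using h
  have hcomp : HasDerivAt (fun ζ : ℂ => ex i j b (EuclideanSpace.single j ζ))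
      (fderiv ℂ (ex i j b) (EuclideanSpace.single j (r : ℂ)) (EuclideanSpace.single j (1 : ℂ)))
      (r : ℂ) := hd.hasFDerivAt.comp_hasDerivAt (r : ℂ) hcurve
  have hproj : HasDerivAt (fun ζ : ℂ => (ex i j b (EuclideanSpace.single j ζ)) i)
      ((fderiv ℂ (ex i j b) (EuclideanSpace.single j (r : ℂ)) (EuclideanSpace.single j (1 : ℂ))) i)
      (r : ℂ) :=
    (EuclideanSpace.proj (𝕜 := ℂ) i).hasFDerivAt.comp_hasDerivAt (r : ℂ) hcomp
  have hval : (fun ζ : ℂ => (ex i j b (EuclideanSpace.single j ζ)) i) = ps b := by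
    funext ζ
    simp [ex, hij]
  rw [hval] at hproj
  have hu := hproj.unique (ps_d h0 h1 hr1')
  have hop : ‖fderiv ℂ (ex i j b) (EuclideanSpace.single j (r : ℂ))
      (EuclideanSpace.single j (1 : ℂ))‖ ≤
      ‖fderiv ℂ (ex i j b) (EuclideanSpace.single j (r : ℂ))‖ := by
    have := (fderiv ℂ (ex i j b) (EuclideanSpace.single j (r : ℂ))).le_opNorm
      (EuclideanSpace.single j (1 : ℂ))
    simpa using this
  refine le_trans (le_trans (le_of_eq ?_) (PiLp.norm_apply_le _ i)) hop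
  rw [hu]
  have hbr : 0 < 1 - b * r := by nlinarith
  have e : (((2 * b * √(1 - b ^ 2) : ℝ) : ℂ) * (2 * (r : ℂ)) / (1 - (b : ℂ) * (r : ℂ)) ^ 3) =
      ((4 * b * √(1 - b ^ 2) * r / (1 - b * r) ^ 3 : ℝ) : ℂ) := by
    push_cast
    ring
  rw [e, Complex.norm_real, Real.norm_of_nonneg (by positivity)]

/-! ### The upper bound -/

lemma growth_bound (hn : 2 ≤ n) {h : Map n} (hh : h ∈ Caratheodory n) {ρ : ℝ} (hρ0 : 0 < ρ)
    (hρ1 : ρ < 1) {w : EuclideanSpace ℂ (Fin n)} (hw : ‖w‖ ≤ ρ) :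
    ‖h w‖ ≤ ρ + 3 * ρ ^ 2 / ((1 - ρ) * √(1 - ρ)) := by
  have hs : 0 < √(1 - ρ) := Real.sqrt_pos.2 (by linarith)
  have hd : 0 < 1 - ρ := by linarith
  rcases eq_or_lt_of_le (norm_nonneg w) with h0 | h0
  · have : w = 0 := norm_eq_zero.1 h0.symm
    rw [this, hh.2.1, norm_zero]
    positivity
  · obtain ⟨-, c2, c3⟩ := Pool.Agent.Results.MP_ea326e_an.Growth.result n hn ‖w‖ h0
      (by linarith)
    have h1 : ‖h w‖ ≤ mn n ‖w‖ := le_csSup c2 ⟨h, hh, w, rfl, rfl⟩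
    refine h1.trans (c3.trans ?_)
    have h2 : (1 - ρ) * √(1 - ρ) ≤ (1 - ‖w‖) * √(1 - ‖w‖) :=
      mul_le_mul (by linarith) (Real.sqrt_le_sqrt (by linarith)) hs.le (by linarith)
    have h3 : 3 * ‖w‖ ^ 2 ≤ 3 * ρ ^ 2 := by nlinarith
    have h4 : 3 * ‖w‖ ^ 2 / ((1 - ‖w‖) * √(1 - ‖w‖)) ≤ 3 * ρ ^ 2 / ((1 - ρ) * √(1 - ρ)) :=
      div_le_div₀ (by positivity) h3 (by positivity) h2
    linarith

lemma fderiv_bound (hn : 2 ≤ n) {h : Map n} (hh : h ∈ Caratheodory n) {r ρ : ℝ} (hr0 : 0 < r)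
    (hrρ : r < ρ) (hρ1 : ρ < 1) {z : EuclideanSpace ℂ (Fin n)} (hz : ‖z‖ = r) :
    ‖fderiv ℂ h z‖ ≤ (ρ + 3 * ρ ^ 2 / ((1 - ρ) * √(1 - ρ))) / (ρ - r) := by
  have hρ0 : 0 < ρ := by linarith
  have hs : 0 < √(1 - ρ) := Real.sqrt_pos.2 (by linarith)
  have hd : 0 < 1 - ρ := by linarith
  have hR : 0 < ρ - r := by linarith
  refine ContinuousLinearMap.opNorm_le_of_unit_norm (𝕜 := ℂ) (by positivity) ?_
  intro u hu
  have hana := hh.1
  have hin : ∀ ζ : ℂ, ‖ζ‖ ≤ ρ - r → ‖z + ζ • u‖ ≤ ρ := by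
    intro ζ hζ
    calc ‖z + ζ • u‖ ≤ ‖z‖ + ‖ζ • u‖ := norm_add_le _ _
      _ ≤ ρ := by rw [norm_smul, hu, mul_one, hz]; linarith
  have hder : ∀ ζ : ℂ, ‖ζ‖ ≤ ρ - r → HasDerivAt (fun ζ : ℂ => h (z + ζ • u))
      (fderiv ℂ h (z + ζ • u) u) ζ := by
    intro ζ hζ
    have h1 : DifferentiableAt ℂ h (z + ζ • u) :=
      (hana _ (by rw [mem_ball_zero_iff]; exact (hin ζ hζ).trans_lt hρ1)).differentiableAt
    have h2 : HasDerivAt (fun ζ : ℂ => z + ζ • u) u ζ := by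
      have := ((hasDerivAt_id ζ).smul_const u).const_add z
      simpa using this
    exact h1.hasFDerivAt.comp_hasDerivAt ζ h2
  have hdc : DiffContOnCl ℂ (fun ζ : ℂ => h (z + ζ • u)) (ball 0 (ρ - r)) := by
    apply DifferentiableOn.diffContOnCl
    intro ζ hζ
    rw [closure_ball _ hR.ne', mem_closedBall_zero_iff] at hζ
    exact (hder ζ hζ).differentiableAt.differentiableWithinAt
  have hC : ∀ ζ ∈ sphere (0 : ℂ) (ρ - r), ‖h (z + ζ • u)‖ ≤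
      ρ + 3 * ρ ^ 2 / ((1 - ρ) * √(1 - ρ)) := by
    intro ζ hζ
    rw [mem_sphere_zero_iff_norm] at hζ
    exact growth_bound hn hh hρ0 hρ1 (hin ζ hζ.le)
  have h5 := Complex.norm_deriv_le_of_forall_mem_sphere_norm_le hR hdc hC
  have h6 := (hder 0 (by rw [norm_zero]; exact hR.le)).deriv
  rw [h6] at h5
  simpa using h5

theorem result : ∀ n : ℕ, 2 ≤ n → ∀ r : ℝ, 0 < r → r < 1 →
    (dvals n r).Nonempty ∧ BddAbove (dvals n r) ∧
    25 / 18 * r / ((1 - r) ^ 2 * √(1 - r)) ≤ dn n r ∧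
    dn n r ≤ 19 / ((1 - r) ^ 2 * √(1 - r)) ∧
    (∀ b : ℝ, 0 < b → b < 1 → 4 * b * √(1 - b ^ 2) * r / (1 - b * r) ^ 3 ≤ dn n r) ∧
    (∀ ρ : ℝ, r < ρ → ρ < 1 →
      dn n r ≤ (ρ + 3 * ρ ^ 2 / ((1 - ρ) * √(1 - ρ))) / (ρ - r)) := by
  intro n hn r hr0 hr1
  let i : Fin n := ⟨0, by omega⟩
  let j : Fin n := ⟨1, by omega⟩
  have hij : i ≠ j := by
    intro h; have := congrArg Fin.val h; simp [i, j] at this
  have hzn : ‖(EuclideanSpace.single j (r : ℂ) : EuclideanSpace ℂ (Fin n))‖ = r := by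
    simp [abs_of_pos hr0]
  have hmemv : ∀ b : ℝ, 0 < b → b < 1 →
      ‖fderiv ℂ (ex i j b) (EuclideanSpace.single j (r : ℂ))‖ ∈ dvals n r := fun b h0 h1 =>
    ⟨_, ex_mem i j hij h0.le h1, _, hzn, rfl⟩
  have hne : (dvals n r).Nonempty := ⟨_, hmemv (1 / 2) (by norm_num) (by norm_num)⟩
  have hup : ∀ ρ : ℝ, r < ρ → ρ < 1 → ∀ x ∈ dvals n r,
      x ≤ (ρ + 3 * ρ ^ 2 / ((1 - ρ) * √(1 - ρ))) / (ρ - r) := by
    rintro ρ h1 h2 x ⟨h, hh, z, hz, rfl⟩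
    exact fderiv_bound hn hh hr0 h1 h2 hz
  have hbdd : BddAbove (dvals n r) :=
    ⟨_, hup ((1 + r) / 2) (by linarith) (by linarith)⟩
  have hlow : ∀ b : ℝ, 0 < b → b < 1 →
      4 * b * √(1 - b ^ 2) * r / (1 - b * r) ^ 3 ≤ dn n r := fun b h0 h1 =>
    (ex_fderiv i j hij h0.le h1 hr0 hr1).trans (le_csSup hbdd (hmemv b h0 h1))
  have hup2 : ∀ ρ : ℝ, r < ρ → ρ < 1 →
      dn n r ≤ (ρ + 3 * ρ ^ 2 / ((1 - ρ) * √(1 - ρ))) / (ρ - r) := fun ρ h1 h2 =>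
    csSup_le hne (hup ρ h1 h2)
  refine ⟨hne, hbdd, ?_, ?_, hlow, hup2⟩
  · -- the lower bound
    have h := hlow ((4 + r) / 5) (by positivity) (by linarith)
    refine le_trans ?_ h
    obtain ⟨s, hs⟩ : ∃ s, s = √(1 - r) := ⟨_, rfl⟩
    have hs0 : 0 < s := by rw [hs]; exact Real.sqrt_pos.2 (by linarith)
    have hs2 : s ^ 2 = 1 - r := by rw [hs]; exact Real.sq_sqrt (by linarith)
    have hsq : 3 / 5 * s ≤ √(1 - ((4 + r) / 5) ^ 2) := by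
      apply Real.le_sqrt_of_sq_le
      rw [mul_pow, hs2]
      nlinarith
    rw [← hs]
    have hbr : 1 - (4 + r) / 5 * r = (1 - r) * (5 + r) / 5 := by ring
    rw [hbr]
    have h1r : 0 < 1 - r := by linarith
    have hp : 0 < ((1 - r) * (5 + r) / 5) ^ 3 := by positivity
    rw [div_le_div_iff₀ (by positivity) hp]
    have hpoly : (5 + r) ^ 3 * (25 / 18) ≤ 60 * (4 + r) := by
      nlinarith [mul_pos hr0 h1r, mul_pos (mul_pos hr0 hr0) h1r]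
    calc 25 / 18 * r * ((1 - r) * (5 + r) / 5) ^ 3
        = r * (1 - r) ^ 3 / 125 * ((5 + r) ^ 3 * (25 / 18)) := by ring
      _ ≤ r * (1 - r) ^ 3 / 125 * (60 * (4 + r)) := by
          apply mul_le_mul_of_nonneg_left hpoly (by positivity)
      _ = 4 * ((4 + r) / 5) * (3 / 5 * s) * r * ((1 - r) ^ 2 * s) := by
          have : (1 - r) ^ 3 = (1 - r) ^ 2 * s ^ 2 := by rw [hs2]; ring
          rw [this]
          ring
      _ ≤ 4 * ((4 + r) / 5) * √(1 - ((4 + r) / 5) ^ 2) * r * ((1 - r) ^ 2 * s) := by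
          apply mul_le_mul_of_nonneg_right _ (by positivity)
          apply mul_le_mul_of_nonneg_right _ hr0.le
          apply mul_le_mul_of_nonneg_left hsq (by positivity)
  · -- the upper bound
    have h := hup2 ((3 * r + 2) / 5) (by linarith) (by linarith)
    refine h.trans ?_
    obtain ⟨s, hs⟩ : ∃ s, s = √(1 - r) := ⟨_, rfl⟩
    have hs0 : 0 < s := by rw [hs]; exact Real.sqrt_pos.2 (by linarith)
    have hs2 : s ^ 2 = 1 - r := by rw [hs]; exact Real.sq_sqrt (by linarith)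
    have hs1 : s ≤ 1 := by nlinarith
    have h1r : 0 < 1 - r := by linarith
    have hsq : 77 / 100 * s ≤ √(1 - (3 * r + 2) / 5) := by
      apply Real.le_sqrt_of_sq_le
      rw [mul_pow, hs2]
      nlinarith
    rw [← hs]
    have e1 : 1 - (3 * r + 2) / 5 = 3 / 5 * (1 - r) := by ring
    have e2 : (3 * r + 2) / 5 - r = 2 / 5 * (1 - r) := by ring
    rw [e2]
    rw [e1] at hsq ⊢
    have hden : 0 < 3 / 5 * (1 - r) * (77 / 100 * s) := by positivity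
    have hnum : 3 * ((3 * r + 2) / 5) ^ 2 ≤ 3 := by nlinarith
    have h2 : 3 * ((3 * r + 2) / 5) ^ 2 / (3 / 5 * (1 - r) * √(3 / 5 * (1 - r))) ≤
        3 / (3 / 5 * (1 - r) * (77 / 100 * s)) := by
      apply div_le_div₀ (by norm_num) hnum hden
      apply mul_le_mul_of_nonneg_left hsq (by positivity)
    have h3 : (3 * r + 2) / 5 ≤ 1 / ((1 - r) * s) := by
      rw [le_div_iff₀ (by positivity)]
      have : (1 - r) * s ≤ 1 := by nlinarith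
      nlinarith [mul_pos h1r hs0]
    have h4 : (3 * r + 2) / 5 + 3 * ((3 * r + 2) / 5) ^ 2 / (3 / 5 * (1 - r) * √(3 / 5 * (1 - r)))
        ≤ 38 / 5 / ((1 - r) * s) := by
      have e3 : 3 / (3 / 5 * (1 - r) * (77 / 100 * s)) = (500 / 77) / ((1 - r) * s) := by
        field_simp
        ring
      rw [e3] at h2
      have e4 : (38 / 5 : ℝ) / ((1 - r) * s) = 1 / ((1 - r) * s) + (33 / 5) / ((1 - r) * s) := by
        rw [← add_div]; norm_num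
      have h5 : (500 / 77 : ℝ) / ((1 - r) * s) ≤ (33 / 5) / ((1 - r) * s) := by
        apply div_le_div_of_nonneg_right (by norm_num) (by positivity)
      linarith
    rw [div_le_div_iff₀ (by positivity) (by positivity)]
    rw [le_div_iff₀ (by positivity)] at h4
    calc _ = ((3 * r + 2) / 5 + 3 * ((3 * r + 2) / 5) ^ 2 /
          (3 / 5 * (1 - r) * √(3 / 5 * (1 - r)))) * ((1 - r) * s) * (1 - r) := by ring
      _ ≤ 38 / 5 * (1 - r) := mul_le_mul_of_nonneg_right h4 h1r.le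
      _ = 19 * (2 / 5 * (1 - r)) := by ring

end Pool.Agent.Results.MP_ea326e_an.Distortion
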